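import Pool.Agent.H93.HM2.Coef

set_option autoImplicit false

open Polynomial MeasureTheory Filter Topology

namespace HM

theorem chp_Nn_le {r : ℝ} (hr : 0 < r) (x : RR) (T : Finset ℤ) (hT : x.coeff.support ⊆ T) {B : ℝ}
    (hB : ∑ k ∈ T, ‖x.coeff k‖ ^ r ≤ B) : Nn r x ≤ B ^ (1 / r) := by
  unfold Nn
  refine Real.rpow_le_rpow (Finset.sum_nonneg fun _ _ => by positivity) ?_ (by positivity)
  exact le_trans (Finset.sum_le_sum_of_subset_of_nonneg hT fun _ _ _ => by positivity) hB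

theorem Nn_vv {r : ℝ} (hr : 0 < r) {n : ℕ} (hn : 0 < n) :
    Nn r (tl (vv n)) ≤ (n : ℝ) ^ (1 / r - 1 / 2) := by
  have hn' : (0 : ℝ) < n := by exact_mod_cast hn
  have h : ∑ k ∈ (Finset.Icc 1 n).image (Nat.cast : ℕ → ℤ), ‖(tl (vv n)).coeff k‖ ^ r ≤
      (n : ℝ) ^ (1 - r / 2) := by
    rw [Finset.sum_image (fun a _ b _ h => by exact_mod_cast h)]
    have e1 : ∀ j ∈ Finset.Icc 1 n, ‖(tl (vv n)).coeff (j : ℤ)‖ ^ r =
        (n : ℝ) ^ (-(1 / 2) * r) := by
      intro j hj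
      rw [coeff_vv_mem hj, norm_ch, ← Real.rpow_mul hn'.le]
    rw [Finset.sum_congr rfl e1, Finset.sum_const, Nat.card_Icc, Nat.add_sub_cancel, nsmul_eq_mul]
    apply le_of_eq
    have e2 : (1 : ℝ) - r / 2 = 1 + -(1 / 2) * r := by ring
    rw [e2, Real.rpow_add hn', Real.rpow_one]
  refine (chp_Nn_le hr _ _ (supp_vv n) h).trans ?_
  rw [← Real.rpow_mul hn'.le]
  apply le_of_eq
  congr 1
  field_simp

/-- The set which contains the exponents. -/
def TS (n : ℕ) : Finset ℤ :=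
  (Finset.range n).image (fun L : ℕ => (L : ℤ)) ∪ (Finset.range n).image (fun L : ℕ => -(L : ℤ))

theorem sum_TS {n : ℕ} (f : ℤ → ℝ) (hf : ∀ l, 0 ≤ f l) (hs : ∀ l, f (-l) = f l) :
    ∑ l ∈ TS n, f l ≤ 2 * ∑ L ∈ Finset.range n, f (L : ℤ) := by
  unfold TS
  have h := Finset.sum_union_inter (s₁ := (Finset.range n).image (fun L : ℕ => (L : ℤ)))
    (s₂ := (Finset.range n).image (fun L : ℕ => -(L : ℤ))) (f := f)
  have h1 : ∑ l ∈ (Finset.range n).image (fun L : ℕ => (L : ℤ)), f l =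
      ∑ L ∈ Finset.range n, f (L : ℤ) :=
    Finset.sum_image (fun a _ b _ h => by exact_mod_cast h)
  have h2 : ∑ l ∈ (Finset.range n).image (fun L : ℕ => -(L : ℤ)), f l =
      ∑ L ∈ Finset.range n, f (L : ℤ) := by
    rw [Finset.sum_image (fun a _ b _ h => by simpa using h)]
    exact Finset.sum_congr rfl fun L _ => hs _
  rw [h1, h2] at h
  have h3 : 0 ≤ ∑ l ∈ (Finset.range n).image (fun L : ℕ => (L : ℤ)) ∩
    (Finset.range n).image (fun L : ℕ => -(L : ℤ)), f l := Finset.sum_nonneg fun _ _ => hf _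
  linarith

theorem norm_cr_neg (n : ℕ) (l : ℤ) : ‖cr n (-l)‖ = ‖cr n l‖ := by
  rw [cr_neg, Complex.norm_conj]

theorem mem_TS {n : ℕ} (hn : 0 < n) {l : ℤ} (h : cr n l ≠ 0) : l ∈ TS n := by
  unfold TS
  rw [Finset.mem_union, Finset.mem_image, Finset.mem_image]
  obtain ⟨L, rfl | rfl⟩ := l.eq_nat_or_neg
  · left
    refine ⟨L, ?_, rfl⟩
    by_contra h'
    rw [Finset.mem_range, not_lt] at h'
    exact h (cr_zero_of hn h')
  · right
    refine ⟨L, ?_, rfl⟩
    by_contra h'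
    rw [Finset.mem_range, not_lt] at h'
    apply h
    rw [cr_neg, cr_zero_of hn h', map_zero]

theorem harm_bd (m : ℕ) : ∑ L ∈ Finset.range m, (1 : ℝ) / ((L : ℝ) + 1) ≤ 1 + Real.log (m + 1) := by
  have h := harmonic_le_one_add_log m
  unfold harmonic at h
  push_cast at h
  have e : ∑ L ∈ Finset.range m, (1 : ℝ) / ((L : ℝ) + 1) =
      ∑ L ∈ Finset.range m, ((L : ℝ) + 1)⁻¹ := by simp
  rw [e]
  refine h.trans ?_
  rcases Nat.eq_zero_or_pos m with h0 | h0
  · subst h0; simp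
  · have : Real.log m ≤ Real.log (m + 1) :=
      Real.log_le_log (by exact_mod_cast h0) (by linarith)
    linarith

/-- The sum of the weights. -/
theorem wsum (m : ℕ) : ∑ L ∈ Finset.range m,
    (1 / (((L + 1 : ℕ) : ℝ)) + 1 / (((m + 1 : ℕ) : ℝ) - ((L + 1 : ℕ) : ℝ))) / 2 ≤
      1 + Real.log (m + 1) := by
  have h := harm_bd m
  have e2 : ∑ L ∈ Finset.range m, 1 / (((m + 1 : ℕ) : ℝ) - ((L + 1 : ℕ) : ℝ)) =
      ∑ L ∈ Finset.range m, (1 : ℝ) / ((L : ℝ) + 1) := by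
    rw [← Finset.sum_range_reflect (fun L : ℕ => (1 : ℝ) / ((L : ℝ) + 1))]
    refine Finset.sum_congr rfl fun L hL => ?_
    rw [Finset.mem_range] at hL
    have : ((m - 1 - L : ℕ) : ℝ) = m - 1 - L := by
      rw [Nat.cast_sub (by omega), Nat.cast_sub (by omega)]
      simp
    rw [this]
    congr 1
    push_cast
    ring
  rw [← Finset.sum_div, Finset.sum_add_distrib, e2]
  push_cast
  linarith

theorem l1_bd (m : ℕ) :
    Nn 1 (tl (vv (m + 1)) * st (tl (vv (m + 1)))) ≤ 4 + 2 * Real.log (m + 1) := by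
  have h := chp_Nn_le (r := 1) one_pos (tl (vv (m + 1)) * st (tl (vv (m + 1)))) (TS (m + 1))
    (fun l hl => mem_TS (Nat.succ_pos m) (by
      rw [Finsupp.mem_support_iff, coeff_prod] at hl; exact hl))
    (B := 4 + 2 * Real.log (m + 1)) (by
      simp only [coeff_prod, Real.rpow_one]
      refine (sum_TS (fun l => ‖cr (m + 1) l‖) (fun _ => norm_nonneg _)
        (fun l => norm_cr_neg _ l)).trans ?_
      rw [Finset.sum_range_succ']
      have h0 : ‖cr (m + 1) ((0 : ℕ) : ℤ)‖ = 1 := by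
        rw [Nat.cast_zero, cr_zero (Nat.succ_pos m), norm_one]
      rw [h0]
      have h1 : ∑ L ∈ Finset.range m, ‖cr (m + 1) ((L + 1 : ℕ) : ℤ)‖ ≤
          ∑ L ∈ Finset.range m,
            (1 / (((L + 1 : ℕ) : ℝ)) + 1 / (((m + 1 : ℕ) : ℝ) - ((L + 1 : ℕ) : ℝ))) / 2 := by
        refine Finset.sum_le_sum fun L hL => ?_
        rw [Finset.mem_range] at hL
        exact (cr_bd (by omega) (by omega)).2
      have h2 := h1.trans (wsum m)
      linarith)
  simpa using h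

theorem l2_bd (m : ℕ) :
    Nn 2 (tl (vv (m + 1)) * st (tl (vv (m + 1))) - 1) ≤
      ((4 + 2 * Real.log (m + 1)) / √((m + 1 : ℕ) : ℝ)) ^ (1 / 2 : ℝ) := by
  set n : ℕ := m + 1 with hn
  have hn0 : (0 : ℝ) < (n : ℝ) := by exact_mod_cast (Nat.succ_pos m)
  have hco : ∀ l : ℤ, (tl (vv n) * st (tl (vv n)) - 1).coeff l =
      if l = 0 then 0 else cr n l := by
    intro l
    rw [AddMonoidAlgebra.coeff_sub, Finsupp.sub_apply, coeff_prod, AddMonoidAlgebra.one_def,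
      AddMonoidAlgebra.coeff_single]
    split_ifs with h
    · subst h
      rw [cr_zero (Nat.succ_pos m)]
      simp
    · rw [Finsupp.single_apply, if_neg (Ne.symm h), sub_zero]
  have h := chp_Nn_le (r := 2) two_pos (tl (vv n) * st (tl (vv n)) - 1) (TS n)
    (fun l hl => mem_TS (Nat.succ_pos m) (by
      rw [Finsupp.mem_support_iff, hco] at hl
      intro h0
      rw [h0, ite_self] at hl
      exact hl rfl))
    (B := (4 + 2 * Real.log (m + 1)) / √((n : ℕ) : ℝ)) (by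
      simp only [hco]
      refine (sum_TS (fun l => ‖if l = 0 then 0 else cr n l‖ ^ (2 : ℝ)) (fun _ => by positivity)
        (fun l => by
          by_cases h : l = 0
          · simp [h]
          · have : -l ≠ 0 := by simpa using h
            simp only [if_neg h, if_neg this, norm_cr_neg])).trans ?_
      rw [hn, Finset.sum_range_succ', ← hn]
      have h0 : ‖if (((0 : ℕ) : ℤ)) = 0 then (0 : ℂ) else cr n ((0 : ℕ) : ℤ)‖ ^ (2 : ℝ) = 0 := by
        simp
      rw [h0, add_zero]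
      have h1 : ∑ L ∈ Finset.range m,
          ‖if (((L + 1 : ℕ) : ℤ)) = 0 then (0 : ℂ) else cr n ((L + 1 : ℕ) : ℤ)‖ ^ (2 : ℝ) ≤
          ∑ L ∈ Finset.range m, (1 / √(n : ℝ)) *
            ((1 / (((L + 1 : ℕ) : ℝ)) + 1 / (((m + 1 : ℕ) : ℝ) - ((L + 1 : ℕ) : ℝ))) / 2) := by
        refine Finset.sum_le_sum fun L hL => ?_
        rw [Finset.mem_range] at hL
        rw [if_neg (by exact_mod_cast Nat.succ_ne_zero L), Real.rpow_two]
        obtain ⟨k1, k2⟩ := cr_bd (n := n) (L := L + 1) (by omega) (by omega)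
        have k3 : ‖cr n ((L + 1 : ℕ) : ℤ)‖ ≤ 1 / √(n : ℝ) := by
          rw [← Real.sqrt_one, ← Real.sqrt_div zero_le_one]
          apply Real.le_sqrt_of_sq_le
          refine k1.trans ?_
          apply div_le_div_of_nonneg_left zero_le_one hn0
          linarith
        rw [sq]
        exact mul_le_mul k3 k2 (norm_nonneg _) (by positivity)
      rw [← Finset.mul_sum] at h1
      have h2 : (1 / √(n : ℝ)) * ∑ L ∈ Finset.range m,
            ((1 / (((L + 1 : ℕ) : ℝ)) + 1 / (((m + 1 : ℕ) : ℝ) - ((L + 1 : ℕ) : ℝ))) / 2) ≤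
          (1 / √(n : ℝ)) * (1 + Real.log (m + 1)) :=
        mul_le_mul_of_nonneg_left (wsum m) (by positivity)
      have h3 := h1.trans h2
      have h4 : (4 + 2 * Real.log (m + 1)) / √(n : ℝ) =
          2 * ((1 / √(n : ℝ)) * (1 + Real.log (m + 1))) + 2 * (1 / √(n : ℝ)) := by ring
      have h5 : (0 : ℝ) ≤ 1 / √(n : ℝ) := by positivity
      rw [h4]
      linarith)
  exact h

theorem asy {c κ : ℝ} (hc : 0 < c) (hκ : 0 < κ) (J : ℕ) :
    ∀ᶠ n : ℕ in atTop, (4 + 2 * Real.log n) ^ J ≤ κ * (n : ℝ) ^ c := by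
  set ε : ℝ := min 1 κ with hε
  have hε0 : 0 < ε := lt_min one_pos hκ
  have hd : 0 < c / (J + 1) := by positivity
  have h1 : (fun x : ℝ => 4 + 2 * Real.log x) =o[atTop] fun x : ℝ => x ^ (c / (J + 1)) := by
    refine Asymptotics.IsLittleO.add ?_ ?_
    · exact Asymptotics.isLittleO_const_left.mpr (Or.inr
        ((tendsto_norm_atTop_atTop).comp (tendsto_rpow_atTop hd)))
    · exact (isLittleO_log_rpow_atTop hd).const_mul_left 2
  have h2 := (h1.def hε0)
  have h3 : ∀ᶠ n : ℕ in atTop, ‖4 + 2 * Real.log (n : ℝ)‖ ≤ ε * ‖(n : ℝ) ^ (c / (J + 1))‖ :=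
    tendsto_natCast_atTop_atTop.eventually h2
  filter_upwards [h3, eventually_ge_atTop 1] with n hn hn1
  have hlog : 0 ≤ Real.log (n : ℝ) := Real.log_natCast_nonneg n
  have ha : (1 : ℝ) ≤ 4 + 2 * Real.log n := by linarith
  rw [Real.norm_of_nonneg (by linarith), Real.norm_of_nonneg (by positivity)] at hn
  calc (4 + 2 * Real.log n) ^ J ≤ (4 + 2 * Real.log n) ^ (J + 1) :=
        pow_le_pow_right₀ ha (Nat.le_succ J)
    _ ≤ (ε * (n : ℝ) ^ (c / (J + 1))) ^ (J + 1) := pow_le_pow_left₀ (by linarith) hn _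
    _ = ε ^ (J + 1) * (n : ℝ) ^ c := by
        rw [mul_pow, ← Real.rpow_natCast ((n : ℝ) ^ (c / (J + 1))), ← Real.rpow_mul (by positivity)]
        congr 2
        push_cast
        field_simp
    _ ≤ κ * (n : ℝ) ^ c := by
        refine mul_le_mul_of_nonneg_right ?_ (by positivity)
        calc ε ^ (J + 1) ≤ ε ^ 1 := pow_le_pow_of_le_one hε0.le (min_le_left _ _) (by omega)
          _ ≤ κ := by rw [pow_one]; exact min_le_right _ _

theorem CHP_proved : S_CHP := by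
  intro p hp κ J hκ
  have hp0 : 0 < p := by linarith
  have hc : 0 < 1 / 2 - 1 / p := by
    have : 1 / p < 1 / 2 := one_div_lt_one_div_of_lt two_pos hp
    linarith
  obtain ⟨N, hN⟩ := ((asy hc hκ J).and (asy (c := 1 / 2) (by norm_num)
    (show 0 < κ ^ 2 by positivity) 1)).exists_forall_of_atTop
  obtain ⟨k1, k2⟩ := hN (N + 1) (by omega)
  set m := N
  have hn0 : (0 : ℝ) < ((m + 1 : ℕ) : ℝ) := by positivity
  have hn1 : (1 : ℝ) ≤ ((m + 1 : ℕ) : ℝ) := by exact_mod_cast Nat.succ_le_succ (Nat.zero_le m)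
  have hlog : 0 ≤ Real.log ((m + 1 : ℕ) : ℝ) := Real.log_natCast_nonneg _
  have hcast : ((m + 1 : ℕ) : ℝ) = (m : ℝ) + 1 := by push_cast; ring
  refine ⟨vv (m + 1), ((m + 1 : ℕ) : ℝ) ^ (1 / 2 - 1 / p), 4 + 2 * Real.log ((m + 1 : ℕ) : ℝ),
    Real.one_le_rpow hn1 hc.le, by linarith, ?_, ?_, ?_, ?_, ?_, k1⟩
  · unfold vv
    rw [Polynomial.finsetSum_coeff]
    refine Finset.sum_eq_zero fun j hj => ?_
    rw [Finset.mem_Icc] at hj
    rw [Polynomial.coeff_monomial, if_neg (by omega)]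
  · have hq : 0 < p / (p - 1) := div_pos hp0 (by linarith)
    refine (Nn_vv hq (Nat.succ_pos m)).trans (le_of_eq ?_)
    congr 1
    have : p - 1 ≠ 0 := by linarith
    field_simp
    ring
  · refine (Nn_vv hp0 (Nat.succ_pos m)).trans (le_of_eq ?_)
    rw [one_div ((((m + 1 : ℕ) : ℝ)) ^ (1 / 2 - 1 / p)), ← Real.rpow_neg hn0.le]
    congr 1
    ring
  · refine (l2_bd m).trans ?_
    rw [← hcast]
    have h3 : (4 + 2 * Real.log ((m + 1 : ℕ) : ℝ)) / √((m + 1 : ℕ) : ℝ) ≤ κ ^ 2 := by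
      rw [div_le_iff₀ (Real.sqrt_pos.mpr hn0), Real.sqrt_eq_rpow]
      simpa using k2
    calc ((4 + 2 * Real.log ((m + 1 : ℕ) : ℝ)) / √((m + 1 : ℕ) : ℝ)) ^ (1 / 2 : ℝ) ≤
        (κ ^ 2) ^ (1 / 2 : ℝ) := Real.rpow_le_rpow (by positivity) h3 (by norm_num)
      _ = κ := by
        rw [← Real.sqrt_eq_rpow, Real.sqrt_sq hκ.le]
  · refine (l1_bd m).trans ?_
    rw [← hcast]
    nlinarith

end HM
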