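import Pool.Agent.H93.HM2.Geo

set_option autoImplicit false

open Polynomial MeasureTheory Filter Topology

namespace HM

/-- The chirp polynomial. -/
noncomputable def vv (n : ℕ) : ℂ[X] := ∑ j ∈ Finset.Icc 1 n, Polynomial.monomial j (ch n j)

theorem tl_vv (n : ℕ) :
    tl (vv n) = ∑ j ∈ Finset.Icc 1 n, AddMonoidAlgebra.single (j : ℤ) (ch n j) := by
  unfold vv tl
  rw [map_sum]
  refine Finset.sum_congr rfl fun j _ => ?_
  rw [Polynomial.toLaurent_C_mul_T, ← LaurentPolynomial.single_eq_C_mul_T]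

theorem coeff_vv (n : ℕ) (k : ℤ) :
    (tl (vv n)).coeff k = ∑ j ∈ Finset.Icc 1 n, if (j : ℤ) = k then ch n j else 0 := by
  rw [tl_vv, AddMonoidAlgebra.coeff_sum, Finsupp.finsetSum_apply]
  refine Finset.sum_congr rfl fun j _ => ?_
  rw [AddMonoidAlgebra.coeff_single, Finsupp.single_apply]

theorem coeff_vv_mem {n j : ℕ} (hj : j ∈ Finset.Icc 1 n) :
    (tl (vv n)).coeff (j : ℤ) = ch n j := by
  rw [coeff_vv, Finset.sum_eq_single j]
  · simp
  · intro b _ hb
    rw [if_neg (by exact_mod_cast hb)]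
  · intro h; exact absurd hj h

theorem supp_vv (n : ℕ) :
    (tl (vv n)).coeff.support ⊆ (Finset.Icc 1 n).image (Nat.cast : ℕ → ℤ) := by
  intro k hk
  rw [Finsupp.mem_support_iff, coeff_vv] at hk
  obtain ⟨j, hj, h⟩ := Finset.exists_ne_zero_of_sum_ne_zero hk
  rw [Finset.mem_image]
  refine ⟨j, hj, ?_⟩
  by_contra hne
  rw [if_neg hne] at h
  exact h rfl

theorem st_vv (n : ℕ) :
    st (tl (vv n)) = ∑ j ∈ Finset.Icc 1 n,
      AddMonoidAlgebra.single (-(j : ℤ)) ((starRingEnd ℂ) (ch n j)) := by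
  unfold st
  rw [Finset.sum_subset (supp_vv n), Finset.sum_image (fun a _ b _ h => by exact_mod_cast h)]
  · refine Finset.sum_congr rfl fun j hj => ?_
    rw [coeff_vv_mem hj]
  · intro k _ hk
    rw [Finsupp.notMem_support_iff] at hk
    rw [hk, map_zero]
    simp

/-- The correlations. -/
noncomputable def cr (n : ℕ) (l : ℤ) : ℂ :=
  ∑ j ∈ Finset.Icc 1 n, ∑ k ∈ Finset.Icc 1 n,
    if (j : ℤ) - k = l then ch n j * (starRingEnd ℂ) (ch n k) else 0

theorem coeff_prod (n : ℕ) (l : ℤ) : (tl (vv n) * st (tl (vv n))).coeff l = cr n l := by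
  rw [st_vv, tl_vv, Finset.sum_mul_sum, AddMonoidAlgebra.coeff_sum, Finsupp.finsetSum_apply]
  unfold cr
  refine Finset.sum_congr rfl fun j _ => ?_
  rw [AddMonoidAlgebra.coeff_sum, Finsupp.finsetSum_apply]
  refine Finset.sum_congr rfl fun k _ => ?_
  rw [AddMonoidAlgebra.single_mul_single, AddMonoidAlgebra.coeff_single, Finsupp.single_apply,
    ← sub_eq_add_neg]

theorem cr_neg (n : ℕ) (l : ℤ) : cr n (-l) = (starRingEnd ℂ) (cr n l) := by
  unfold cr
  rw [map_sum, Finset.sum_comm]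
  refine Finset.sum_congr rfl fun k _ => ?_
  rw [map_sum]
  refine Finset.sum_congr rfl fun j _ => ?_
  have : ((j : ℤ) - k = -l) ↔ ((k : ℤ) - j = l) := by constructor <;> intro h <;> linarith
  by_cases h : (k : ℤ) - j = l
  · rw [if_pos (this.mpr h), if_pos h, map_mul, Complex.conj_conj, mul_comm]
  · rw [if_neg (fun h' => h (this.mp h')), if_neg h, map_zero]

theorem cr_zero {n : ℕ} (hn : 0 < n) : cr n 0 = 1 := by
  unfold cr
  have e1 : ∀ j ∈ Finset.Icc 1 n, ∑ k ∈ Finset.Icc 1 n,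
      (if (j : ℤ) - k = 0 then ch n j * (starRingEnd ℂ) (ch n k) else 0) = ((1 / n : ℝ) : ℂ) := by
    intro j hj
    rw [Finset.sum_eq_single j]
    · rw [if_pos (sub_self _), Complex.mul_conj, Complex.normSq_eq_norm_sq, norm_ch, sq,
        nhalf_sq hn]
    · intro k _ hk
      rw [if_neg]
      intro h
      apply hk
      have : (j : ℤ) = k := by linarith
      exact_mod_cast this.symm
    · intro h; exact absurd hj h
  rw [Finset.sum_congr rfl e1, Finset.sum_const, Nat.card_Icc]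
  have : (n : ℂ) ≠ 0 := by exact_mod_cast hn.ne'
  simp [this]

theorem cr_pos {n L : ℕ} (hn : 0 < n) :
    cr n L = ((1 / n : ℝ) : ℂ) *
      (Complex.exp (Complex.I * ((Real.pi * (L : ℝ) ^ 2 / n : ℝ) : ℂ)) * (zt n L *
        ∑ k ∈ Finset.range (n - L), zt n L ^ k)) := by
  have e2 : cr n L = ∑ k ∈ Finset.range (n - L), ch n (k + 1 + L) *
      (starRingEnd ℂ) (ch n (k + 1)) := by
    unfold cr
    rw [Finset.sum_comm]
    have e1 : ∀ k ∈ Finset.Icc 1 n, ∑ j ∈ Finset.Icc 1 n,
        (if (j : ℤ) - k = L then ch n j * (starRingEnd ℂ) (ch n k) else 0) =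
        if k + L ≤ n then ch n (k + L) * (starRingEnd ℂ) (ch n k) else 0 := by
      intro k hk
      rw [Finset.mem_Icc] at hk
      by_cases h : k + L ≤ n
      · rw [if_pos h, Finset.sum_eq_single (k + L)]
        · rw [if_pos (by push_cast; ring)]
        · intro j _ hj
          rw [if_neg]
          intro h'
          apply hj
          have : (j : ℤ) = ((k + L : ℕ) : ℤ) := by push_cast; linarith
          exact_mod_cast this
        · intro h'
          exact absurd (Finset.mem_Icc.mpr ⟨by omega, h⟩) h'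
      · rw [if_neg h]
        refine Finset.sum_eq_zero fun j hj => ?_
        rw [Finset.mem_Icc] at hj
        rw [if_neg]
        intro h'
        omega
    rw [Finset.sum_congr rfl e1, ← Finset.sum_filter]
    symm
    refine Finset.sum_bij (fun k _ => k + 1) ?_ ?_ ?_ ?_
    · intro k hk
      rw [Finset.mem_range] at hk
      rw [Finset.mem_filter, Finset.mem_Icc]
      omega
    · intro a _ b _ h
      omega
    · intro b hb
      rw [Finset.mem_filter, Finset.mem_Icc] at hb
      exact ⟨b - 1, Finset.mem_range.mpr (by omega), by omega⟩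
    · intro k _; rfl
  rw [e2, Finset.mul_sum, Finset.mul_sum, Finset.mul_sum]
  refine Finset.sum_congr rfl fun k _ => ?_
  rw [ch_mul hn, pow_succ]
  ring

theorem cr_zero_of {n L : ℕ} (hn : 0 < n) (hL : n ≤ L) : cr n L = 0 := by
  rw [cr_pos hn]
  have : n - L = 0 := by omega
  rw [this]
  simp

theorem cr_bd {n L : ℕ} (hL : 1 ≤ L) (hLn : L < n) :
    ‖cr n L‖ ^ 2 ≤ 1 / (2 * n) ∧ ‖cr n L‖ ≤ (1 / (L : ℝ) + 1 / ((n : ℝ) - L)) / 2 := by
  have hn0 : 0 < n := by omega
  have hn : (0 : ℝ) < n := by exact_mod_cast hn0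
  have hL0 : (0 : ℝ) < L := by exact_mod_cast hL
  have hLn' : (L : ℝ) < n := by exact_mod_cast hLn
  have hm : (0 : ℝ) < min (L : ℝ) (n - L) := lt_min hL0 (by linarith)
  obtain ⟨h1, h2⟩ := geo_bd hL hLn
  have e1 : ‖cr n L‖ = 1 / n * ‖∑ k ∈ Finset.range (n - L), zt n L ^ k‖ := by
    rw [cr_pos hn0, norm_mul, norm_mul, norm_mul, norm_zt, one_mul, mul_comm Complex.I,
      Complex.norm_exp_ofReal_mul_I, one_mul, Complex.norm_real,
      Real.norm_of_nonneg (by positivity)]
  set g := ‖∑ k ∈ Finset.range (n - L), zt n L ^ k‖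
  have hg : 0 ≤ g := norm_nonneg _
  constructor
  · rw [e1]
    have h3 : g * g ≤ min (L : ℝ) (n - L) * (n / (2 * min (L : ℝ) (n - L))) :=
      mul_le_mul h1 h2 hg hm.le
    have h4 : min (L : ℝ) (n - L) * (n / (2 * min (L : ℝ) (n - L))) = n / 2 := by
      field_simp
    rw [h4] at h3
    have h5 : (1 / (n : ℝ) * g) ^ 2 = 1 / n ^ 2 * (g * g) := by ring
    rw [h5]
    calc 1 / (n : ℝ) ^ 2 * (g * g) ≤ 1 / n ^ 2 * (n / 2) :=
          mul_le_mul_of_nonneg_left h3 (by positivity)
      _ = 1 / (2 * n) := by field_simp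
  · rw [e1]
    calc 1 / (n : ℝ) * g ≤ 1 / n * (n / (2 * min (L : ℝ) (n - L))) :=
          mul_le_mul_of_nonneg_left h2 (by positivity)
      _ = (1 / min (L : ℝ) (n - L)) / 2 := by field_simp
      _ ≤ _ := by
        refine div_le_div_of_nonneg_right ?_ (by norm_num)
        have a1 : 0 ≤ 1 / (L : ℝ) := by positivity
        have a2 : 0 ≤ 1 / ((n : ℝ) - L) := by
          have : 0 < (n : ℝ) - L := by linarith
          positivity
        rcases min_cases (L : ℝ) (n - L) with h | h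
        · rw [h.1]; linarith
        · rw [h.1]; linarith

end HM
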