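import Pool.Agent.H67.HM.Stm2

set_option autoImplicit false

open Polynomial MeasureTheory Filter Topology

namespace HM

/-- The chirp. -/
noncomputable def ch (n j : ℕ) : ℂ :=
  (((n : ℝ) ^ (-(1 / 2 : ℝ)) : ℝ) : ℂ) *
    Complex.exp (Complex.I * ((Real.pi * (j : ℝ) ^ 2 / n : ℝ) : ℂ))

theorem norm_ch (n j : ℕ) : ‖ch n j‖ = (n : ℝ) ^ (-(1 / 2 : ℝ)) := by
  unfold ch
  rw [norm_mul, mul_comm Complex.I, Complex.norm_exp_ofReal_mul_I, mul_one, Complex.norm_real,
    Real.norm_of_nonneg (by positivity)]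

theorem nhalf_sq {n : ℕ} (hn : 0 < n) :
    (n : ℝ) ^ (-(1 / 2 : ℝ)) * (n : ℝ) ^ (-(1 / 2 : ℝ)) = 1 / n := by
  have h : (0 : ℝ) < n := by exact_mod_cast hn
  rw [← Real.rpow_add h]
  norm_num
  rw [Real.rpow_neg_one]

/-- The root of unity. -/
noncomputable def zt (n L : ℕ) : ℂ := Complex.exp (Complex.I * ((2 * Real.pi * L / n : ℝ) : ℂ))

theorem ch_mul {n : ℕ} (hn : 0 < n) (k L : ℕ) :
    ch n (k + L) * (starRingEnd ℂ) (ch n k) =
      ((1 / n : ℝ) : ℂ) * (Complex.exp (Complex.I * ((Real.pi * (L : ℝ) ^ 2 / n : ℝ) : ℂ)) *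
        zt n L ^ k) := by
  have h : (n : ℂ) ≠ 0 := by exact_mod_cast hn.ne'
  unfold ch zt
  rw [map_mul, ← Complex.exp_conj, map_mul, Complex.conj_I, Complex.conj_ofReal,
    Complex.conj_ofReal, ← nhalf_sq hn, ← Complex.exp_nat_mul]
  have e1 : ∀ a b c d : ℂ, a * b * (a * c) = (a * a) * (b * c) := fun a b c _ => by ring
  rw [e1 _ _ _ 0, ← Complex.exp_add, ← Complex.exp_add, Complex.ofReal_mul]
  congr 2
  push_cast
  field_simp
  ring

theorem norm_zt (n L : ℕ) : ‖zt n L‖ = 1 := by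
  unfold zt
  rw [mul_comm, Complex.norm_exp_ofReal_mul_I]

theorem zt_pow {n : ℕ} (hn : 0 < n) (L : ℕ) : zt n L ^ n = 1 := by
  have h : (n : ℂ) ≠ 0 := by exact_mod_cast hn.ne'
  unfold zt
  rw [← Complex.exp_nat_mul, Complex.exp_eq_one_iff]
  refine ⟨L, ?_⟩
  push_cast
  field_simp

theorem zt_sub {n L : ℕ} (hL : 1 ≤ L) (hLn : L < n) :
    4 * (min (L : ℝ) (n - L)) / n ≤ ‖zt n L - 1‖ := by
  have hn : (0 : ℝ) < n := by exact_mod_cast (by omega : 0 < n)
  have hL0 : (0 : ℝ) < L := by exact_mod_cast hL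
  have hLn' : (L : ℝ) < n := by exact_mod_cast hLn
  unfold zt
  rw [Complex.norm_exp_I_mul_ofReal_sub_one, Real.norm_eq_abs]
  have e1 : 2 * Real.pi * L / n / 2 = Real.pi * L / n := by ring
  rw [e1]
  have hpi := Real.pi_pos
  have key : ∀ x : ℝ, 0 ≤ x → 2 * x ≤ n → 2 * x / n ≤ Real.sin (Real.pi * x / n) := by
    intro x hx hxn
    have h := Real.mul_le_sin (x := Real.pi * x / n) (by positivity) (by
      rw [div_le_iff₀ hn]; nlinarith)
    have e2 : 2 / Real.pi * (Real.pi * x / n) = 2 * x / n := by field_simp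
    rwa [e2] at h
  rcases le_total (L : ℝ) (n - L) with h | h
  · rw [min_eq_left h]
    have h2 := key L hL0.le (by linarith)
    have h3 : 4 * (L : ℝ) / n = 2 * (2 * L / n) := by ring
    rw [h3]
    exact (mul_le_mul_of_nonneg_left h2 (by norm_num)).trans (le_abs_self _)
  · rw [min_eq_right h]
    have h2 := key (n - L) (by linarith) (by linarith)
    have h4 : Real.pi * (n - L) / n = Real.pi - Real.pi * L / n := by field_simp
    rw [h4, Real.sin_pi_sub] at h2
    have h3 : 4 * ((n : ℝ) - L) / n = 2 * (2 * (n - L) / n) := by ring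
    rw [h3]
    exact (mul_le_mul_of_nonneg_left h2 (by norm_num)).trans (le_abs_self _)

theorem geo_bd {n L : ℕ} (hL : 1 ≤ L) (hLn : L < n) :
    ‖∑ k ∈ Finset.range (n - L), zt n L ^ k‖ ≤ min (L : ℝ) (n - L) ∧
    ‖∑ k ∈ Finset.range (n - L), zt n L ^ k‖ ≤ n / (2 * min (L : ℝ) (n - L)) := by
  have hn : (0 : ℝ) < n := by exact_mod_cast (by omega : 0 < n)
  have hL0 : (0 : ℝ) < L := by exact_mod_cast hL
  have hLn' : (L : ℝ) < n := by exact_mod_cast hLn
  have hm : (0 : ℝ) < min (L : ℝ) (n - L) := lt_min hL0 (by linarith)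
  have hz := zt_sub hL hLn
  have hz0 : 0 < ‖zt n L - 1‖ := lt_of_lt_of_le (by positivity) hz
  have hne : zt n L ≠ 1 := fun h => by rw [h, sub_self, norm_zero] at hz0; exact lt_irrefl _ hz0
  have hterm : ∀ s : Finset ℕ, ‖∑ k ∈ s, zt n L ^ k‖ ≤ s.card := by
    intro s
    refine (norm_sum_le _ _).trans ?_
    simp [norm_zt]
  refine ⟨le_min ?_ ?_, ?_⟩
  · have h0 : ∑ k ∈ Finset.range n, zt n L ^ k = 0 := by
      rw [geom_sum_eq hne, zt_pow (by omega), sub_self, zero_div]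
    have h1 : ∑ k ∈ Finset.range (n - L), zt n L ^ k +
        ∑ k ∈ Finset.Ico (n - L) n, zt n L ^ k = 0 := by
      rw [Finset.sum_range_add_sum_Ico _ (by omega), h0]
    have h2 : ∑ k ∈ Finset.range (n - L), zt n L ^ k =
        -∑ k ∈ Finset.Ico (n - L) n, zt n L ^ k := eq_neg_of_add_eq_zero_left h1
    rw [h2, norm_neg]
    refine (hterm _).trans ?_
    rw [Nat.card_Ico]
    have : n - (n - L) = L := by omega
    rw [this]
  · refine (hterm _).trans ?_
    rw [Finset.card_range, Nat.cast_sub hLn.le]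
  · rw [geom_sum_eq hne, norm_div]
    have h1 : ‖zt n L ^ (n - L) - 1‖ ≤ 2 := by
      refine (norm_sub_le _ _).trans ?_
      rw [norm_pow, norm_zt]
      norm_num
    refine (div_le_div₀ (by norm_num) h1 (by positivity) hz).trans ?_
    apply le_of_eq
    field_simp
    norm_num

end HM
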